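import Pool.Agent.P.MP_ee618e_ag.FP.Slope

/-!
The opposite pair in a family of Weil numbers with vanishing slope sum.
-/

set_option autoImplicit false

namespace Pool.Agent.P.MP_ee618e_ag.FP

open Polynomial

theorem three_values' {I X Y : Type*} {B : Finset I} {v : I → X → ℝ} {j : I}
    (hj : j ∈ B) {x₀ : X} (h0 : v j x₀ ≠ 0) (habs : ∀ k ∈ B, ∀ x, |v k x| = |v j x|)
    (hs : ∀ x, ∑ k ∈ B, v k x = 0) {C : Set Y} (hC : C.encard ≤ 3) (b : I → Y)
    (hb : ∀ k ∈ B, b k ∈ C) (hv : ∀ k ∈ B, ∀ l ∈ B, b k = b l → v k = v l ∨ v k = - v l) :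
    ∃ k ∈ B, ∃ l ∈ B, v k = - v l := by
  classical
  by_contra hno
  refine hno (three_values hj h0 habs hs ?_)
  let g : Y → X → ℝ := fun c => if h : ∃ k ∈ B, b k = c then v h.choose else 0
  have h1 : B.image v ⊆ (B.image b).image g := by
    intro y hy
    obtain ⟨k, hk, rfl⟩ := Finset.mem_image.1 hy
    refine Finset.mem_image.2 ⟨b k, Finset.mem_image_of_mem b hk, ?_⟩
    have h2 : ∃ l ∈ B, b l = b k := ⟨k, hk, rfl⟩
    simp only [g, dif_pos h2]
    exact (hv _ h2.choose_spec.1 k hk h2.choose_spec.2).resolve_right fun h3 =>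
      hno ⟨_, h2.choose_spec.1, k, hk, h3⟩
  refine (Finset.card_le_card h1).trans (Finset.card_image_le.trans ?_)
  have h2 : ((B.image b : Finset Y) : Set Y) ⊆ C := by
    intro y hy
    obtain ⟨k, hk, rfl⟩ := Finset.mem_image.1 (Finset.mem_coe.1 hy)
    exact hb k hk
  have h3 := (Set.encard_le_encard h2).trans hC
  rw [Set.encard_coe_eq_coe_finsetCard] at h3
  exact_mod_cast h3

theorem root_or {L : Type*} [Field L] {c x y : L} (hx : x ≠ 0) (hy : y ≠ 0)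
    (h : y + c / y = x + c / x) : y = x ∨ y = c / x := by
  have h1 : (y - x) * (y - c / x) = 0 := by
    field_simp at h ⊢
    linear_combination h
  rcases mul_eq_zero.1 h1 with h2 | h2
  · exact Or.inl (sub_eq_zero.1 h2)
  · exact Or.inr (sub_eq_zero.1 h2)

variable {Ω : Type*} [NormedField Ω]

/-- The hypotheses on the traces. -/
structure Hyp (E : Type*) {N : Type*} [Field E] [Field N] [Algebra E N] (q : ℕ) (P : ℤ[X])
    (ι : N →+* Ω) (T : Set N) : Prop where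
  stable : ∀ σ : N ≃ₐ[E] N, ∀ a ∈ T, σ a ∈ T
  roots : ∀ z : Ω, aeval z P = 0 → ‖z‖ ^ 2 ≠ ‖(q : Ω)‖ → z + q / z ∈ ι '' T
  above : ∀ a ∈ T, ∀ τ : N →+* Ω, ‖(q : Ω)‖ < ‖τ a‖ ^ 2 →
    ∀ x : E, τ (algebraMap E N x) = ι (algebraMap E N x)
  slope : ∀ a ∈ T, ∀ b ∈ T, IsSquare ((a ^ 2 - 4 * q) * (b ^ 2 - 4 * q)) →
    ‖(q : Ω)‖ < ‖ι a‖ ^ 2 → ‖ι b‖ = ‖ι a‖
  few : ∀ a ∈ T, {w : N → ℝ | ∃ τ : N →+* Ω, ‖(q : Ω)‖ < ‖τ a‖ ^ 2 ∧
      w = fun x => ‖τ x‖}.encard ≤ 2 ∨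
    {b ∈ T | IsSquare ((a ^ 2 - 4 * q) * (b ^ 2 - 4 * q))}.encard ≤ 3

variable {E N : Type*} [Field E] [Field N] [Algebra E N]

theorem exists_sigma [IsGalois E N] (ι τ : N →+* Ω)
    (h : ∀ x : E, τ (algebraMap E N x) = ι (algebraMap E N x)) :
    ∃ σ : N ≃ₐ[E] N, ∀ x, ι (σ x) = τ x := by
  let : Algebra N Ω := ι.toAlgebra
  let : Algebra E Ω := (ι.comp (algebraMap E N)).toAlgebra
  have : IsScalarTower E N Ω := IsScalarTower.of_algebraMap_eq fun _ => rfl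
  let g : N →ₐ[E] Ω := { τ with commutes' := h }
  exact ⟨g.restrictNormal' N, fun x => g.restrictNormal_commutes N x⟩

theorem core [IsUltrametricDist Ω] [IsGalois E N] {q : ℕ} {P : ℤ[X]} {ι : N →+* Ω} {T : Set N}
    (H : Hyp E q P ι T) (hq : (q : Ω) ≠ 0) {L : Type*} [Field L] [Algebra N L]
    [FiniteDimensional N L] [IsGalois N L] (φ₁ : L →+* Ω) (hφ₁ : ∀ x, φ₁ (algebraMap N L x) = ι x)
    {I : Type*} {β : I → L} {J : Finset I} (hr : ∀ k ∈ J, aeval (β k) P = 0)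
    (h0 : ∀ k ∈ J, β k ≠ 0) (hsum : ∀ φ : L →+* Ω, ∑ k ∈ J, sl (q : Ω) (φ (β k)) = 0)
    {j : I} (hj : j ∈ J) (hj0 : sl (q : Ω) (φ₁ (β j)) ≠ 0) :
    ∃ k ∈ J, ∃ l ∈ J, k ≠ l ∧
      ∀ φ : L →+* Ω, sl (q : Ω) (φ (β k)) + sl (q : Ω) (φ (β l)) = 0 := by
  classical
  have hqL : (q : L) ≠ 0 := fun h => hq (by rw [← map_natCast φ₁, h, map_zero])
  let v : I → (L →+* Ω) → ℝ := fun k φ => sl (q : Ω) (φ (β k))
  let Ab : (L →+* Ω) → Prop := fun φ =>
    ∀ x : E, φ (algebraMap N L (algebraMap E N x)) = ι (algebraMap E N x)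
  have n0 : ∀ (φ : L →+* Ω), ∀ k ∈ J, φ (β k) ≠ 0 := fun φ k hk => (map_ne_zero φ).2 (h0 k hk)
  have tr : ∀ (φ : L →+* Ω) (x : L), φ (x + q / x) = φ x + q / φ x := fun φ x => by simp
  have hA : ∀ φ, Ab φ → ∀ k ∈ J, v k φ ≠ 0 → ∃ b ∈ T, algebraMap N L b = β k + q / β k := by
    intro φ hφ k hk hv
    have h1 : aeval (φ (β k)) P = 0 := by
      rw [← map_zero φ, ← hr k hk]
      exact aeval_algHom_apply φ.toIntAlgHom _ P
    obtain ⟨b, hb, h2⟩ := H.roots _ h1 fun h => hv ((sl_eq_zero hq (n0 φ k hk)).2 h)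
    obtain ⟨σ, hσ⟩ := exists_sigma ι (φ.comp (algebraMap N L)) hφ
    refine ⟨σ.symm b, H.stable _ _ hb, φ.injective ?_⟩
    rw [tr, ← h2]
    simpa using (hσ (σ.symm b)).symm
  have big : ∀ (φ : L →+* Ω), ∀ k ∈ J, ∀ b, algebraMap N L b = β k + q / β k → v k φ ≠ 0 →
      ‖(q : Ω)‖ < ‖φ (algebraMap N L b)‖ ^ 2 ∧ |v k φ| = sl (q : Ω) (φ (algebraMap N L b)) := by
    intro φ k hk b hb hv
    rw [hb, tr]
    exact abs_sl hq (n0 φ k hk) fun h => hv ((sl_eq_zero hq (n0 φ k hk)).2 h)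
  have big' : ∀ (φ : L →+* Ω), ∀ k ∈ J, ∀ b, algebraMap N L b = β k + q / β k →
      ‖(q : Ω)‖ < ‖φ (algebraMap N L b)‖ ^ 2 → v k φ ≠ 0 := by
    intro φ k hk b hb h1 hv
    rw [hb, tr] at h1
    exact h1.not_ge ((sl_zero_iff hq (n0 φ k hk)).1 hv)
  have hB : ∀ (φ : L →+* Ω), ∀ k ∈ J, ∀ b ∈ T, algebraMap N L b = β k + q / β k → v k φ ≠ 0 →
      Ab φ := fun φ k hk b hb h1 hv =>
    H.above b hb (φ.comp (algebraMap N L)) (big φ k hk b h1 hv).1
  have hC : ∀ k ∈ J, ∀ b, algebraMap N L b = β k + q / β k → ∀ h : L ≃ₐ[N] L,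
      h (β k) = β k ∨ h (β k) = q / β k := by
    intro k hk b hb h
    refine root_or (h0 k hk) ((map_ne_zero h).2 (h0 k hk)) ?_
    rw [← hb, ← h.commutes b, hb]
    simp
  obtain ⟨a, ha, hja⟩ := hA φ₁ (fun x => hφ₁ _) j hj hj0
  let B : Finset I := J.filter fun k => (∃ b ∈ T, algebraMap N L b = β k + q / β k) ∧
    ∀ h : L ≃ₐ[N] L, (h (β j) = β j ∧ h (β k) = β k) ∨ (h (β j) = q / β j ∧ h (β k) = q / β k)
  have hjB : j ∈ B := Finset.mem_filter.2 ⟨hj, ⟨a, ha, hja⟩, fun h =>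
    (hC j hj a hja h).imp (fun h1 => ⟨h1, h1⟩) fun h1 => ⟨h1, h1⟩⟩
  have hBJ : ∀ k ∈ B, k ∈ J := fun k hk => (Finset.mem_filter.1 hk).1
  have neg : ∀ (φ : L →+* Ω), ∀ k ∈ J, sl (q : Ω) (φ (q / β k)) = - v k φ := by
    intro φ k hk
    rw [map_div₀, map_natCast, sl_div hq (n0 φ k hk)]
  have hD : ∀ φ, Ab φ → v j φ * ∑ k ∈ B, v k φ = 0 := by
    intro φ hφ
    let c : (L ≃ₐ[N] L) → L →+* Ω := fun h => φ.comp (h : L →+* L)
    have hc : ∀ h, Ab (c h) := fun h x => by simpa [c] using hφ x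
    have h1 : ∑ k ∈ J, ∑ h : L ≃ₐ[N] L, v j (c h) * v k (c h) = 0 := by
      rw [Finset.sum_comm]
      refine Finset.sum_eq_zero fun h _ => ?_
      rw [← Finset.mul_sum, hsum, mul_zero]
    rw [← Finset.sum_subset (Finset.filter_subset _ J : B ⊆ J)] at h1
    · have h2 : ∀ k ∈ B, ∑ h : L ≃ₐ[N] L, v j (c h) * v k (c h) =
          Fintype.card (L ≃ₐ[N] L) * (v j φ * v k φ) := by
        intro k hk
        rw [Finset.sum_congr rfl (g := fun _ => v j φ * v k φ)]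
        · simp
        intro h _
        rcases (Finset.mem_filter.1 hk).2.2 h with ⟨h3, h4⟩ | ⟨h3, h4⟩
        · change sl _ (φ (h _)) * sl _ (φ (h _)) = _
          rw [h3, h4]
        · change sl _ (φ (h _)) * sl _ (φ (h _)) = _
          rw [h3, h4, neg φ j hj, neg φ k (hBJ k hk), neg_mul_neg]
      rw [Finset.sum_congr rfl h2, ← Finset.mul_sum, ← Finset.mul_sum] at h1
      exact (mul_eq_zero.1 h1).resolve_left (by exact_mod_cast Fintype.card_ne_zero)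
    · intro k hk hkB
      by_cases hb : ∃ b ∈ T, algebraMap N L b = β k + q / β k
      · have h2 : ¬ ∀ h : L ≃ₐ[N] L, (h (β j) = β j ∧ h (β k) = β k) ∨
            (h (β j) = q / β j ∧ h (β k) = q / β k) := fun h3 =>
          hkB (Finset.mem_filter.2 ⟨hk, hb, h3⟩)
        obtain ⟨h₀, h3⟩ := not_forall.1 h2
        obtain ⟨b, -, hb⟩ := hb
        have h4 : ∀ h, v j (c (h * h₀)) * v k (c (h * h₀)) = - (v j (c h) * v k (c h)) := by
          intro h
          change sl _ (c h (h₀ _)) * sl _ (c h (h₀ _)) = _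
          rcases hC j hj a hja h₀ with h5 | h5 <;> rcases hC k hk b hb h₀ with h6 | h6
          · exact absurd (Or.inl ⟨h5, h6⟩) h3
          · rw [h5, h6, neg _ k hk, mul_neg]
          · rw [h5, h6, neg _ j hj, neg_mul]
          · exact absurd (Or.inr ⟨h5, h6⟩) h3
        have h5 := Equiv.sum_comp (Equiv.mulRight h₀) fun h => v j (c h) * v k (c h)
        simp only [Equiv.coe_mulRight, h4, Finset.sum_neg_distrib] at h5
        linarith
      · refine Finset.sum_eq_zero fun h _ => ?_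
        rw [not_not.1 fun h2 => hb (hA _ (hc h) k hk h2), mul_zero]
  choose! b hbT hb using fun k (hk : k ∈ B) => (Finset.mem_filter.1 hk).2.1
  have hE : ∀ k ∈ B, IsSquare ((a ^ 2 - 4 * q) * (b k ^ 2 - 4 * q)) := by
    intro k hk
    obtain ⟨d, hd⟩ := (IsGalois.mem_range_algebraMap_iff_fixed (F := N)
      ((β j - q / β j) * (β k - q / β k))).2 fun h => by
        have := h0 j hj
        have := h0 k (hBJ k hk)
        rcases (Finset.mem_filter.1 hk).2.2 h with ⟨h3, h4⟩ | ⟨h3, h4⟩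
        · simp [h3, h4]
        · simp only [map_mul, map_sub, map_div₀, map_natCast, h3, h4]
          field_simp
          ring
    refine ⟨d, (algebraMap N L).injective ?_⟩
    have := h0 j hj
    have := h0 k (hBJ k hk)
    simp only [map_mul, map_sub, map_pow, map_natCast, map_ofNat, hd, hja, hb k hk]
    field_simp
    ring
  have hF' : ∀ φ, ∀ k ∈ J, ∀ l ∈ J, ∀ x ∈ T, ∀ y ∈ T, algebraMap N L x = β k + q / β k →
      algebraMap N L y = β l + q / β l → IsSquare ((x ^ 2 - 4 * q) * (y ^ 2 - 4 * q)) →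
      v k φ ≠ 0 → |v l φ| = |v k φ| := by
    intro φ k hk l hl x hx y hy h1 h2 h3 hv
    obtain ⟨σ, hσ⟩ := exists_sigma ι (φ.comp (algebraMap N L)) (hB φ k hk x hx h1 hv)
    obtain ⟨h4, h5⟩ := big φ k hk x h1 hv
    have h6 := H.slope _ (H.stable σ x hx) _ (H.stable σ y hy)
      (by simpa [map_ofNat] using h3.map (σ : N →* N)) (by rw [hσ]; exact h4)
    rw [hσ, hσ, RingHom.comp_apply, RingHom.comp_apply] at h6
    rw [h5, (big φ l hl y h2 (big' φ l hl y h2 (h6 ▸ h4))).2, sl, sl, h6]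
  have hF : ∀ k ∈ B, ∀ φ, |v k φ| = |v j φ| := by
    intro k hk φ
    by_cases h1 : v j φ = 0
    · by_contra h2
      exact h2 (hF' φ k (hBJ k hk) j hj _ (hbT k hk) a ha (hb k hk) hja
        (by rw [mul_comm]; exact hE k hk) fun h3 => h2 (by rw [h1, h3])).symm
    · exact hF' φ j hj k (hBJ k hk) a ha _ (hbT k hk) hja (hb k hk) (hE k hk) h1
  have hS : ∀ φ, ∑ k ∈ B, v k φ = 0 := by
    intro φ
    by_cases h1 : v j φ = 0
    · exact Finset.sum_eq_zero fun k hk => abs_eq_zero.1 (by rw [hF k hk, h1, abs_zero])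
    · exact (mul_eq_zero.1 (hD φ (hB φ j hj a ha hja h1))).resolve_left h1
  suffices h : ∃ k ∈ B, ∃ l ∈ B, v k = - v l by
    obtain ⟨k, hk, l, hl, h⟩ := h
    refine ⟨k, hBJ k hk, l, hBJ l hl, ?_, fun φ => ?_⟩
    · rintro rfl
      have h1 : v k φ₁ = - v k φ₁ := congrFun h φ₁
      have h2 := hF k hk φ₁
      rw [show v k φ₁ = 0 by linarith, abs_zero] at h2
      exact hj0 (abs_eq_zero.1 h2.symm)
    · have h1 : v k φ = - v l φ := congrFun h φ
      change v k φ + v l φ = 0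
      linarith
  rcases H.few a ha with h1 | h1
  · have h2 : {w : N → ℝ | ∃ φ : L →+* Ω, v j φ ≠ 0 ∧
        w = fun x => ‖φ (algebraMap N L x)‖}.encard ≤ 2 := by
      refine (Set.encard_le_encard ?_).trans h1
      rintro _ ⟨φ, h3, rfl⟩
      exact ⟨φ.comp (algebraMap N L), (big φ j hj a hja h3).1, rfl⟩
    obtain ⟨_, ⟨φ₂, h3, rfl⟩, h4⟩ := exists_second h2 ⟨φ₁, hj0, rfl⟩
    obtain ⟨k, hk, h5, h6⟩ := two_places hjB (x := fun k => v k φ₁) (y := fun k => v k φ₂)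
      (fun k hk => hF k hk φ₁) (fun k hk => hF k hk φ₂) hj0 h3 (hS φ₁) (hS φ₂)
    refine ⟨k, hk, j, hjB, funext fun φ => ?_⟩
    obtain ⟨t, ht⟩ := (IsGalois.mem_range_algebraMap_iff_fixed (F := N)
      (β k * β j + q ^ 2 / (β k * β j))).2 fun h => by
        have := h0 j hj
        have := h0 k (hBJ k hk)
        rcases (Finset.mem_filter.1 hk).2.2 h with ⟨h3, h4⟩ | ⟨h3, h4⟩
        · simp [h3, h4]
        · simp only [map_mul, map_add, map_div₀, map_pow, map_natCast, h3, h4]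
          field_simp
          ring
    have h7 : ∀ ψ : L →+* Ω, v k ψ = - v j ψ ↔
        ‖ψ (algebraMap N L t)‖ ^ 2 ≤ ‖(q : Ω) ^ 2‖ := by
      intro ψ
      have h8 := sl_zero_iff (pow_ne_zero 2 hq) (mul_ne_zero (n0 ψ k (hBJ k hk)) (n0 ψ j hj))
      rw [sl_mul (n0 ψ k (hBJ k hk)) (n0 ψ j hj), add_eq_zero_iff_eq_neg] at h8
      rw [ht]
      simpa using h8
    change v k φ = - v j φ
    by_cases h8 : v j φ = 0
    · rw [h8, neg_zero]
      exact abs_eq_zero.1 (by rw [hF k hk, h8, abs_zero])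
    · rw [h7]
      rcases h4 _ ⟨φ, h8, rfl⟩ with h9 | h9 <;> rw [congrFun h9 t, ← h7]
      · exact h5
      · exact h6
  · refine three_values' hjB hj0 hF hS h1 b (fun k hk => ⟨hbT k hk, hE k hk⟩) ?_
    intro k hk l hl h2
    rcases root_or (c := (q : L)) (h0 l (hBJ l hl)) (h0 k (hBJ k hk))
      (by rw [← hb k hk, ← hb l hl, h2]) with h3 | h3
    · exact Or.inl (funext fun φ => by simp only [v, h3])
    · exact Or.inr (funext fun φ => by simp only [v, h3, neg φ l (hBJ l hl), Pi.neg_apply])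

end Pool.Agent.P.MP_ee618e_ag.FP
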