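import Pool.Agent.P.MP_ee618e_ag.Defs

/-!
Descent of the generation of Tate classes by divisor classes along a field extension.
-/

set_option autoImplicit false

namespace Pool.Agent.P.MP_ee618e_ag.FP

open TensorProduct

variable {K V : Type*} [Field K] [AddCommGroup V] [Module K V] (A : Type*) [Field A] [Algebra K A]

theorem anti (x y : A ⊗[K] V) :
    (ExteriorAlgebra.ι K).baseChange A x * (ExteriorAlgebra.ι K).baseChange A y +
      (ExteriorAlgebra.ι K).baseChange A y * (ExteriorAlgebra.ι K).baseChange A x = 0 := by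
  induction x using TensorProduct.induction_on with
  | zero => simp
  | add x x' h h' =>
    rw [map_add, add_mul, mul_add, add_add_add_comm, h, h', add_zero]
  | tmul a v =>
    induction y using TensorProduct.induction_on with
    | zero => simp
    | add y y' h h' =>
      rw [map_add, add_mul, mul_add, add_add_add_comm, h, h', add_zero]
    | tmul b w =>
      simp only [LinearMap.baseChange_tmul, Algebra.TensorProduct.tmul_mul_tmul]
      rw [mul_comm b a, ← tmul_add, ExteriorAlgebra.ι_add_mul_swap, tmul_zero]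

theorem sq_zero (x : A ⊗[K] V) :
    (ExteriorAlgebra.ι K).baseChange A x * (ExteriorAlgebra.ι K).baseChange A x = 0 := by
  induction x using TensorProduct.induction_on with
  | zero => simp
  | add x y h h' =>
    rw [map_add, add_mul, mul_add, mul_add, h, h', zero_add, add_zero, anti]
  | tmul a v => simp

variable (K V)

/-- The map from the exterior algebra of the base change to the base change. -/
noncomputable def down : ExteriorAlgebra A (A ⊗[K] V) →ₐ[A] A ⊗[K] ExteriorAlgebra K V :=
  ExteriorAlgebra.lift A ⟨(ExteriorAlgebra.ι K).baseChange A, sq_zero A⟩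

/-- The map from the exterior algebra to the exterior algebra of the base change. -/
noncomputable def up : ExteriorAlgebra K V →ₐ[K] ExteriorAlgebra A (A ⊗[K] V) :=
  ExteriorAlgebra.lift K ⟨(ExteriorAlgebra.ι A).restrictScalars K ∘ₗ TensorProduct.mk K A V 1,
    fun _ => ExteriorAlgebra.ι_sq_zero _⟩

variable {K V}

theorem down_ι (x : A ⊗[K] V) :
    down K V A (ExteriorAlgebra.ι A x) = (ExteriorAlgebra.ι K).baseChange A x :=
  ExteriorAlgebra.lift_ι_apply _ _ _ _

theorem up_ι (x : V) : up K V A (ExteriorAlgebra.ι K x) = ExteriorAlgebra.ι A (1 ⊗ₜ x) :=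
  ExteriorAlgebra.lift_ι_apply _ _ _ _

theorem down_up (x : ExteriorAlgebra K V) : down K V A (up K V A x) = 1 ⊗ₜ x := by
  have h : ((down K V A).restrictScalars K).comp (up K V A) =
      Algebra.TensorProduct.includeRight := by
    ext v
    simp [up_ι, down_ι]
  exact AlgHom.congr_fun h x

theorem up_map (G : V →ₗ[K] V) (x : ExteriorAlgebra K V) :
    up K V A (ExteriorAlgebra.map G x) = ExteriorAlgebra.map (G.baseChange A) (up K V A x) := by
  have h : (up K V A).comp (ExteriorAlgebra.map G) =
      ((ExteriorAlgebra.map (G.baseChange A)).restrictScalars K).comp (up K V A) := by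
    ext v
    simp [up_ι]
  exact AlgHom.congr_fun h x

theorem down_map (G : V →ₗ[K] V) (z : ExteriorAlgebra A (A ⊗[K] V)) :
    down K V A (ExteriorAlgebra.map (G.baseChange A) z) =
      (ExteriorAlgebra.map G).toLinearMap.baseChange A (down K V A z) := by
  have h : (down K V A).comp (ExteriorAlgebra.map (G.baseChange A)) =
      (Algebra.TensorProduct.map (AlgHom.id A A) (ExteriorAlgebra.map G)).comp (down K V A) := by
    ext v
    simp [down_ι]
  refine (AlgHom.congr_fun h z).trans ?_
  rw [AlgHom.comp_apply]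
  generalize down K V A z = w
  induction w using TensorProduct.induction_on with
  | zero => simp
  | add x y h h' => rw [map_add, map_add, h, h']
  | tmul a v => simp

theorem up_mem {n : ℕ} {x : ExteriorAlgebra K V} (hx : x ∈ ⋀[K]^n V) :
    up K V A x ∈ ⋀[A]^n (A ⊗[K] V) := by
  induction hx using Submodule.pow_induction_on_left' with
  | algebraMap r =>
    rw [AlgHom.commutes, IsScalarTower.algebraMap_apply K A]
    exact Submodule.algebraMap_mem _
  | add x y i _ _ h h' =>
    rw [map_add]
    exact add_mem h h'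
  | mem_mul m hm i x _ h =>
    obtain ⟨v, rfl⟩ := hm
    rw [map_mul, up_ι]
    change _ ∈ _ ^ (i + 1)
    rw [pow_succ']
    exact Submodule.mul_mem_mul ⟨_, rfl⟩ h

/-- The span of `1 ⊗ U`. -/
def bc {R : Type*} [Ring R] [Algebra K R] (U : Submodule K R) : Submodule A (A ⊗[K] R) :=
  Submodule.span A ((fun u => (1 : A) ⊗ₜ[K] u) '' U)

section bc

variable {A} {R : Type*} [Ring R] [Algebra K R]

theorem tmul_mem_bc {U : Submodule K R} (a : A) {u : R} (hu : u ∈ U) : a ⊗ₜ[K] u ∈ bc A U := by
  have h : a ⊗ₜ[K] u = a • ((1 : A) ⊗ₜ[K] u) := by simp [smul_tmul']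
  rw [h]
  exact Submodule.smul_mem _ _ (Submodule.subset_span ⟨u, hu, rfl⟩)

theorem bc_mul {U U' U'' : Submodule K R} (h : ∀ u ∈ U, ∀ u' ∈ U', u * u' ∈ U'')
    {x y : A ⊗[K] R} (hx : x ∈ bc A U) (hy : y ∈ bc A U') : x * y ∈ bc A U'' := by
  have h1 := Submodule.mul_mem_mul hx hy
  rw [bc, bc, Submodule.span_mul_span] at h1
  refine Submodule.span_le.2 ?_ h1
  rintro _ ⟨_, ⟨u, hu, rfl⟩, _, ⟨u', hu', rfl⟩, rfl⟩
  simp only [Algebra.TensorProduct.tmul_mul_tmul, SetLike.mem_coe]
  exact tmul_mem_bc _ (h u hu u' hu')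

/-- Contraction with a linear form. -/
noncomputable def pr (f : A →ₗ[K] K) : A ⊗[K] R →ₗ[K] R :=
  (TensorProduct.lid K R).toLinearMap ∘ₗ f.rTensor R

theorem pr_tmul (f : A →ₗ[K] K) (a : A) (u : R) : pr f (a ⊗ₜ u) = f a • u := by
  simp [pr]

theorem pr_mem {U : Submodule K R} (f : A →ₗ[K] K) {x : A ⊗[K] R} (hx : x ∈ bc A U) :
    pr f x ∈ U := by
  have h : ∀ a : A, pr f (a • x) ∈ U := by
    induction hx using Submodule.span_induction with
    | mem y hy =>
      obtain ⟨u, hu, rfl⟩ := hy
      intro a
      rw [smul_tmul', pr_tmul]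
      exact U.smul_mem _ hu
    | zero => simp
    | add y z _ _ h h' =>
      intro a
      rw [smul_add, map_add]
      exact add_mem (h a) (h' a)
    | smul c y _ h =>
      intro a
      rw [smul_smul]
      exact h _
  simpa using h 1

theorem mem_bc {U : Submodule K R} {x : A ⊗[K] R} (h : ∀ f : A →ₗ[K] K, pr f x ∈ U) :
    x ∈ bc A U := by
  classical
  let c := Module.Basis.ofVectorSpace K A
  rw [← (TensorProduct.equivFinsuppOfBasisLeft c).symm_apply_apply x,
    TensorProduct.equivFinsuppOfBasisLeft_symm_apply]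
  refine Submodule.sum_mem _ fun i _ => tmul_mem_bc _ ?_
  rw [TensorProduct.equivFinsuppOfBasisLeft_apply]
  exact h _

theorem pr_baseChange (f : A →ₗ[K] K) (G : R →ₗ[K] R) (x : A ⊗[K] R) :
    pr f (G.baseChange A x) = G (pr f x) := by
  induction x using TensorProduct.induction_on with
  | zero => simp
  | add x y h h' => simp only [map_add, h, h']
  | tmul a v => simp [pr_tmul]

end bc

theorem down_mem {n : ℕ} {z : ExteriorAlgebra A (A ⊗[K] V)} (hz : z ∈ ⋀[A]^n (A ⊗[K] V)) :
    down K V A z ∈ bc A (⋀[K]^n V) := by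
  induction hz using Submodule.pow_induction_on_left' with
  | algebraMap r =>
    rw [AlgHom.commutes]
    exact tmul_mem_bc _ (Submodule.mem_one.2 ⟨1, map_one _⟩)
  | add x y i _ _ h h' =>
    rw [map_add]
    exact add_mem h h'
  | mem_mul m hm i x _ h =>
    obtain ⟨v, rfl⟩ := hm
    rw [map_mul, down_ι]
    refine bc_mul (U := LinearMap.range (ExteriorAlgebra.ι K)) (fun u hu u' hu' => ?_) ?_ h
    · change _ ∈ _ ^ (i + 1)
      rw [pow_succ']
      exact Submodule.mul_mem_mul hu hu'
    · induction v using TensorProduct.induction_on with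
      | zero => simp
      | add x y h h' =>
        rw [map_add]
        exact add_mem h h'
      | tmul a v => exact tmul_mem_bc _ ⟨v, rfl⟩

theorem descent (F : V →ₗ[K] V) (q : K) (i : ℕ)
    (h : TateClasses (F.baseChange A) (algebraMap K A q) i ⊆
      Algebra.adjoin A (TateClasses (F.baseChange A) (algebraMap K A q) 1)) :
    TateClasses F q i ⊆ Algebra.adjoin K (TateClasses F q 1) := by
  rintro x ⟨hx, n, hn, h1⟩
  have h2 := h (a := up K V A x) ⟨up_mem A hx, n, hn, by
    rw [← LinearMap.baseChange_pow, ← up_map, h1, map_smul, ← map_pow, algebraMap_smul]⟩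
  let U := Subalgebra.toSubmodule (Algebra.adjoin K (TateClasses F q 1))
  have h3 : ∀ z ∈ Algebra.adjoin A (TateClasses (F.baseChange A) (algebraMap K A q) 1),
      down K V A z ∈ bc A U := by
    intro z hz
    induction hz using Algebra.adjoin_induction with
    | mem z hz =>
      obtain ⟨h4, m, hm, h5⟩ := hz
      refine mem_bc fun f => Algebra.subset_adjoin ⟨pr_mem f (down_mem A h4), m, hm, ?_⟩
      have h6 := congrArg (fun w => pr f (down K V A w)) h5
      rwa [← LinearMap.baseChange_pow, down_map, pr_baseChange, map_smul, ← map_pow,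
        algebraMap_smul, map_smul] at h6
    | algebraMap r =>
      rw [AlgHom.commutes]
      exact tmul_mem_bc _ (one_mem (Algebra.adjoin K (TateClasses F q 1)))
    | add y z _ _ h h' =>
      rw [map_add]
      exact add_mem h h'
    | mul y z _ _ h h' =>
      rw [map_mul]
      exact bc_mul (fun u hu u' hu' => mul_mem (s := Algebra.adjoin K (TateClasses F q 1)) hu hu')
        h h'
  obtain ⟨f, hf⟩ := (Algebra.linearMap K A).exists_leftInverse_of_injective
    (LinearMap.ker_eq_bot.2 (algebraMap K A).injective)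
  have h4 := pr_mem f (h3 _ h2)
  have h5 : f 1 = 1 := by simpa using LinearMap.congr_fun hf 1
  rwa [down_up, pr_tmul, h5, one_smul] at h4

/-- A semisimple endomorphism has an eigenbasis over an algebraic closure. -/
theorem exists_eigenbasis [IsAlgClosed A] [CharZero K] [FiniteDimensional K V] {F : V →ₗ[K] V}
    (hF : Module.End.IsSemisimple F) :
    ∃ (s : Set (A ⊗[K] V)) (b : Module.Basis s A (A ⊗[K] V)) (α : s → A),
      ∀ j, F.baseChange A (b j) = α j • b j := by
  have h1 : Module.End.IsSemisimple (F.baseChange A) := by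
    refine Module.End.isSemisimple_of_squarefree_aeval_eq_zero
      (p := (minpoly K F).map (algebraMap K A))
      (PerfectField.separable_iff_squarefree.2 hF.minpoly_squarefree).map.squarefree ?_
    rw [Polynomial.aeval_map_algebraMap]
    have h2 := Polynomial.aeval_algHom_apply (Module.End.baseChangeHom K A V) F (minpoly K F)
    rw [minpoly.aeval, map_zero] at h2
    exact h2
  have h2 : ⊤ ≤ Submodule.span A {w | ∃ μ : A, F.baseChange A w = μ • w} := by
    rw [← h1.iSup_eigenspace_eq_top]
    exact iSup_le fun μ w hw => Submodule.subset_span ⟨μ, Module.End.mem_eigenspace_iff.1 hw⟩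
  have h3 := fun j => Module.Basis.ofSpan_subset h2 ⟨j, rfl⟩
  choose α hα using h3
  exact ⟨_, Module.Basis.ofSpan h2, α, hα⟩

end Pool.Agent.P.MP_ee618e_ag.FP
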