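import Pool.Agent.P.MP_ee618e_ag.FP.Pair
import Pool.Agent.P.MP_ee618e_ag.FP.Descent
import Pool.Agent.P.MP_ee618e_ag.Ext

/-!
Generation of the Tate classes by divisor classes.
-/

set_option autoImplicit false

namespace Pool.Agent.P.MP_ee618e_ag.FP

open Polynomial Module

theorem gen_of_pairs {K V I : Type*} [Field K] [AddCommGroup V] [Module K V] {b : Basis I K V}
    {F : V →ₗ[K] V} {α : I → K} (hF : ∀ j, F (b j) = α j • b j) {q : K} (q0 : q ≠ 0)
    (hpair : ∀ (J : Finset I) (i n : ℕ), J.card = 2 * (i + 1) → 0 < n →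
      (∏ k ∈ J, α k) ^ n = q ^ ((i + 1) * n) →
      ∃ k ∈ J, ∃ l ∈ J, k ≠ l ∧ ∃ m, 0 < m ∧ (α k * α l) ^ m = q ^ m) (i : ℕ) :
    TateClasses F q i ⊆ Algebra.adjoin K (TateClasses F q 1) := by
  classical
  let : LinearOrder I := linearOrderOfSTO WellOrderingRel
  have key : ∀ (i n : ℕ) (J : Finset I), J.card = 2 * i → 0 < n →
      (∏ j ∈ J, α j) ^ n = q ^ (i * n) →
      b.ExteriorAlgebra J ∈ Algebra.adjoin K (TateClasses F q 1) := by
    intro i
    induction i with
    | zero =>
      intro n J hJ _ _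
      rw [Finset.card_eq_zero.1 hJ, e_empty]
      exact one_mem _
    | succ i ih =>
      intro n J hJ hn hrel
      obtain ⟨j, hj, k, hk, h1, m, hm, h2⟩ := hpair J i n hJ hn hrel
      have hs : {j, k} ⊆ J := by
        intro x hx
        simp only [Finset.mem_insert, Finset.mem_singleton] at hx
        rcases hx with rfl | rfl <;> assumption
      rw [← Finset.union_sdiff_of_subset hs]
      refine e_union_mem b _ Finset.disjoint_sdiff
        (Algebra.subset_adjoin (e_tate hF hm (Finset.card_pair h1) ?_))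
        (ih (n * m) _ ?_ (mul_pos hn hm) ?_)
      · rw [Finset.prod_pair h1, h2, one_mul]
      · rw [Finset.card_sdiff_of_subset hs, Finset.card_pair h1]
        omega
      · rw [← Finset.prod_sdiff hs, Finset.prod_pair h1] at hrel
        have h3 := congrArg (· ^ m) hrel
        simp only [mul_pow _ (α j * α k), ← pow_mul] at h3
        rw [mul_pow, ← pow_mul, ← pow_mul, mul_comm n m, pow_mul (α j * α k), h2, ← pow_mul,
          show (i + 1) * n * m = i * (m * n) + m * n by ring, pow_add] at h3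
        rw [mul_comm n m]
        exact mul_right_cancel₀ (pow_ne_zero _ q0) h3
  intro x hx
  rw [SetLike.mem_coe, ← Subalgebra.mem_toSubmodule]
  refine Submodule.span_le.2 ?_ (b.ExteriorAlgebra.mem_span_repr_support x)
  rintro _ ⟨J, hJ, rfl⟩
  obtain ⟨h1, n, hn, h2⟩ := supp_tate hF hx hJ
  exact key i n J h1 hn h2

theorem main {p : ℕ} [hp : Fact p.Prime] {E N : Type*} [Field E] [Field N] [Algebra E N]
    [NumberField N] [IsGalois E N] {e : ℕ} {P : ℤ[X]} {ι : N →+* PadicAlgCl p}
    {T : Set N} (H : Hyp E (p ^ e) P ι T) (hP : P.Monic)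
    (hW : ∀ z : ℂ, aeval z P = 0 → ‖z‖ ^ 2 = (p : ℝ) ^ e) {K V : Type*} [Field K] [CharZero K]
    [AddCommGroup V] [Module K V] [FiniteDimensional K V] {F : V →ₗ[K] V}
    (hF : Module.End.IsSemisimple F) (hFP : aeval F P = 0) (i : ℕ) :
    TateClasses F ((p : K) ^ e) i ⊆ Algebra.adjoin K (TateClasses F ((p : K) ^ e) 1) := by
  let A := AlgebraicClosure K
  have : CharZero A := algebraRat.charZero A
  obtain ⟨s, b, α, hα⟩ := exists_eigenbasis A hF
  refine descent A F _ i ?_
  rw [map_pow, map_natCast]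
  refine gen_of_pairs hα (pow_ne_zero _ (by exact_mod_cast hp.out.ne_zero))
    (fun J i n hJ hn h => pair H hP hW (fun k => ?_) hJ hn h) i
  have h1 := aeval_algHom_apply (Module.End.baseChangeHom K A V) F (P.map (algebraMap ℤ K))
  rw [aeval_map_algebraMap, aeval_map_algebraMap, hFP, map_zero] at h1
  change aeval (F.baseChange A) P = 0 at h1
  have h2 := Module.End.aeval_apply_of_hasEigenvector (p := P.map (algebraMap ℤ A))
    (f := F.baseChange A) (μ := α k) (x := b k)
    ⟨Module.End.mem_eigenspace_iff.2 (hα k), b.ne_zero k⟩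
  rw [aeval_map_algebraMap, h1, eval_map_algebraMap] at h2
  exact (smul_eq_zero.1 h2.symm).resolve_right (b.ne_zero k)

end Pool.Agent.P.MP_ee618e_ag.FP
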