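import Pool.Agent.P.MP_ee618e_ag.FP.Core
import Pool.Agent.P.MP_ee618e_ag.Kron

/-!
A Tate monomial contains a pair of eigenvalues whose product is `q` up to a root of unity.
-/

set_option autoImplicit false

namespace Pool.Agent.P.MP_ee618e_ag.FP

open Polynomial

variable {p : ℕ} [hp : Fact p.Prime] {E N : Type*} [Field E] [Field N] [Algebra E N]

theorem exists_big [NumberField N] {P : ℤ[X]} (hP : P.Monic) (ι : N →+* PadicAlgCl p) :
    ∃ L : IntermediateField ℚ (PadicAlgCl p), FiniteDimensional ℚ L ∧ Normal ℚ L ∧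
      (∀ x, ι x ∈ L) ∧ ∀ z : PadicAlgCl p, aeval z P = 0 → z ∈ L := by
  let pb := Field.powerBasisOfFiniteOfSeparable ℚ N
  let Q : ℚ[X] := P.map (algebraMap ℤ ℚ) * minpoly ℚ pb.gen
  have hQ : Q ≠ 0 := mul_ne_zero (hP.map _).ne_zero (minpoly.ne_zero pb.isIntegral_gen)
  have hs : (Q.map (algebraMap ℚ (PadicAlgCl p))).Splits := IsAlgClosed.splits _
  have hsf : IsSplittingField ℚ (IntermediateField.adjoin ℚ (Q.rootSet (PadicAlgCl p))) Q := by
    convert IntermediateField.adjoin_rootSet_isSplittingField hs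
    exact Subsingleton.elim _ _
  refine ⟨IntermediateField.adjoin ℚ (Q.rootSet (PadicAlgCl p)),
    IsSplittingField.finiteDimensional _ Q, Normal.of_isSplittingField Q, fun x => ?_,
    fun z hz => IntermediateField.subset_adjoin _ _ ?_⟩
  · obtain ⟨f, rfl⟩ := pb.exists_eq_aeval' x
    have h1 : ι pb.gen ∈ IntermediateField.adjoin ℚ (Q.rootSet (PadicAlgCl p)) := by
      refine IntermediateField.subset_adjoin _ _ (mem_rootSet.2 ⟨hQ, ?_⟩)
      have h2 := aeval_algHom_apply ι.toRatAlgHom pb.gen (minpoly ℚ pb.gen)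
      rw [minpoly.aeval, map_zero] at h2
      rw [map_mul]
      exact mul_eq_zero_of_right _ h2
    have h2 := aeval_algHom_apply ι.toRatAlgHom pb.gen f
    change aeval (ι pb.gen) f = ι _ at h2
    rw [← h2]
    have h3 := aeval_algHom_apply (IntermediateField.val _) ⟨_, h1⟩ f
    change aeval (ι pb.gen) f = _ at h3
    rw [h3]
    exact Subtype.prop _
  · refine mem_rootSet.2 ⟨hQ, ?_⟩
    rw [map_mul, aeval_map_algebraMap, hz, zero_mul]

theorem pair_padic [NumberField N] [IsGalois E N] {e : ℕ} {P : ℤ[X]} {ι : N →+* PadicAlgCl p}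
    {T : Set N} (H : Hyp E (p ^ e) P ι T) (hP : P.Monic)
    (hW : ∀ z : ℂ, aeval z P = 0 → ‖z‖ ^ 2 = (p : ℝ) ^ e) {I : Type*} {β : I → PadicAlgCl p}
    (hr : ∀ k, aeval (β k) P = 0) {J : Finset I} {i n : ℕ} (hJ : J.card = 2 * (i + 1)) (hn : 0 < n)
    (h : (∏ k ∈ J, β k) ^ n = ((p : PadicAlgCl p) ^ e) ^ ((i + 1) * n)) :
    ∃ k ∈ J, ∃ l ∈ J, k ≠ l ∧ ∃ m, 0 < m ∧ (β k * β l) ^ m = ((p : PadicAlgCl p) ^ e) ^ m := by
  obtain ⟨L, hfd, hno, hι, hL⟩ := exists_big hP ι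
  have : NumberField L := ⟨⟩
  have : IsGalois ℚ L := ⟨⟩
  let : Algebra N L := (ι.codRestrict L.toSubfield hι).toAlgebra
  have : IsScalarTower ℚ N L := IsScalarTower.of_algebraMap_eq fun x => by simp
  have : FiniteDimensional N L := Module.Finite.right ℚ N L
  have : IsGalois N L := IsGalois.tower_top_of_isGalois ℚ N L
  let φ₁ : L →+* PadicAlgCl p := algebraMap L _
  let γ : I → L := fun k => ⟨β k, hL _ (hr k)⟩
  have p0 : (0 : ℝ) < p := by exact_mod_cast hp.out.pos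
  have hq : ((p ^ e : ℕ) : PadicAlgCl p) ≠ 0 := by exact_mod_cast pow_ne_zero e hp.out.ne_zero
  have hqL : (p : L) ^ e ≠ 0 := pow_ne_zero e (by exact_mod_cast hp.out.ne_zero)
  have rt : ∀ {Ω : Type} [Field Ω] (ψ : L →+* Ω) (z : L), aeval z P = 0 → aeval (ψ z) P = 0 := by
    intro Ω _ ψ z hz
    rw [← map_zero ψ, ← hz]
    exact aeval_algHom_apply ψ.toIntAlgHom _ P
  have hγ : ∀ k, aeval (γ k) P = 0 := fun k => φ₁.injective (by
    rw [map_zero, ← hr k]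
    exact (aeval_algHom_apply φ₁.toIntAlgHom _ P).symm)
  have hγ0 : ∀ k, γ k ≠ 0 := by
    intro k h0
    obtain ⟨ψ⟩ : Nonempty (L →+* ℂ) := inferInstance
    have h1 := hW _ (rt ψ _ (hγ k))
    rw [h0, map_zero, norm_zero] at h1
    exact (pow_pos p0 e).ne' (by rw [← h1]; norm_num)
  have hrel : (∏ k ∈ J, γ k) ^ n = ((p : L) ^ e) ^ ((i + 1) * n) := φ₁.injective (by
    simp only [map_pow, map_prod, map_natCast]
    exact h)
  have hsum : ∀ φ : L →+* PadicAlgCl p,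
      ∑ k ∈ J, sl ((p ^ e : ℕ) : PadicAlgCl p) (φ (γ k)) = 0 := fun φ =>
    sl_sum (fun k _ => (map_ne_zero φ).2 (hγ0 k)) hJ hn (by simpa using congrArg φ hrel)
  have key : ∃ k ∈ J, ∃ l ∈ J, k ≠ l ∧ ∀ τ : L ≃ₐ[ℚ] L,
      sl ((p ^ e : ℕ) : PadicAlgCl p) (φ₁ (τ (γ k))) +
        sl ((p ^ e : ℕ) : PadicAlgCl p) (φ₁ (τ (γ l))) = 0 := by
    by_cases h1 : ∀ σ : L ≃ₐ[ℚ] L, ∀ k ∈ J, sl ((p ^ e : ℕ) : PadicAlgCl p) (φ₁ (σ (γ k))) = 0
    · obtain ⟨k, hk, l, hl, h2⟩ := Finset.one_lt_card.1 (show 1 < J.card by omega)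
      exact ⟨k, hk, l, hl, h2, fun τ => by rw [h1 τ k hk, h1 τ l hl, add_zero]⟩
    · push Not at h1
      obtain ⟨σ, j, hj, h1⟩ := h1
      obtain ⟨k, hk, l, hl, h2, h3⟩ := core H hq φ₁ (fun _ => rfl) (β := fun k => σ (γ k))
        (fun k _ => rt (σ : L →+* L) _ (hγ k)) (fun k _ => (map_ne_zero σ).2 (hγ0 k))
        (fun φ => hsum (φ.comp (σ : L →+* L))) hj h1
      exact ⟨k, hk, l, hl, h2, fun τ => by
        simpa using h3 (φ₁.comp ((τ * σ⁻¹ : L ≃ₐ[ℚ] L) : L →+* L))⟩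
  obtain ⟨k, hk, l, hl, h1, h2⟩ := key
  obtain ⟨m, hm, h3⟩ := kron φ₁ (u := γ k * γ l / (p : L) ^ e)
    ⟨e, by
      rw [mul_div_cancel₀ _ hqL]
      exact IsIntegral.mul ⟨P, hP, hγ k⟩ ⟨P, hP, hγ l⟩⟩
    (fun τ => by
      have n0 : ∀ k, φ₁ (τ (γ k)) ≠ 0 := fun k => (map_ne_zero φ₁).2 ((map_ne_zero τ).2 (hγ0 k))
      have h4 := h2 τ
      rw [← sl_mul (n0 k) (n0 l), sl_eq_zero (pow_ne_zero 2 hq) (mul_ne_zero (n0 k) (n0 l)),
        norm_pow, sq_eq_sq₀ (norm_nonneg _) (norm_nonneg _)] at h4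
      simp only [map_div₀, map_mul, map_pow, map_natCast, norm_div, h4, Nat.cast_pow]
      exact div_self (norm_ne_zero_iff.2 (by exact_mod_cast hq)))
    (fun ψ => by
      have h4 := hW _ (rt ψ _ (hγ k))
      have h5 := hW _ (rt ψ _ (hγ l))
      have h6 : ‖ψ (γ k)‖ = ‖ψ (γ l)‖ :=
        (sq_eq_sq₀ (norm_nonneg _) (norm_nonneg _)).1 (h4.trans h5.symm)
      simp only [map_div₀, map_mul, map_pow, map_natCast, norm_div, norm_mul, norm_pow,
        Complex.norm_natCast]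
      rw [h6, ← sq, h5, div_self (pow_pos p0 e).ne'])
  refine ⟨k, hk, l, hl, h1, m, hm, ?_⟩
  rw [div_pow, div_eq_one_iff_eq (pow_ne_zero m hqL)] at h3
  have h4 := congrArg φ₁ h3
  rw [map_pow, map_mul, map_pow, map_pow, map_natCast] at h4
  exact h4

/-- The same statement in any field of characteristic zero. -/
theorem pair [NumberField N] [IsGalois E N] {e : ℕ} {P : ℤ[X]} {ι : N →+* PadicAlgCl p}
    {T : Set N} (H : Hyp E (p ^ e) P ι T) (hP : P.Monic)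
    (hW : ∀ z : ℂ, aeval z P = 0 → ‖z‖ ^ 2 = (p : ℝ) ^ e) {K : Type*} [Field K] [CharZero K]
    {I : Type*} {α : I → K} (hr : ∀ k, aeval (α k) P = 0) {J : Finset I} {i n : ℕ}
    (hJ : J.card = 2 * (i + 1)) (hn : 0 < n)
    (h : (∏ k ∈ J, α k) ^ n = ((p : K) ^ e) ^ ((i + 1) * n)) :
    ∃ k ∈ J, ∃ l ∈ J, k ≠ l ∧ ∃ m, 0 < m ∧ (α k * α l) ^ m = ((p : K) ^ e) ^ m := by
  let A := algebraicClosure ℚ K
  have : Algebra.IsAlgebraic ℚ A := by
    convert algebraicClosure.isAlgebraic ℚ K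
    · rfl
    · exact Subsingleton.elim _ _
  let f : A →ₐ[ℚ] PadicAlgCl p := IsAlgClosed.lift
  let γ : I → A := fun k => ⟨α k, mem_algebraicClosure_iff'.2
    (IsIntegral.tower_top (R := ℤ) ⟨P, hP, hr k⟩)⟩
  let g : A →+* K := algebraMap A K
  have hγ : ∀ k, aeval (γ k) P = 0 := fun k => g.injective (by
    rw [map_zero, ← hr k]
    exact (aeval_algHom_apply g.toIntAlgHom _ P).symm)
  have hrel : (∏ k ∈ J, γ k) ^ n = ((p : A) ^ e) ^ ((i + 1) * n) := g.injective (by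
    simp only [map_pow, map_prod, map_natCast]
    exact h)
  obtain ⟨k, hk, l, hl, h1, m, hm, h2⟩ := pair_padic H hP hW (β := fun k => f (γ k))
    (fun k => by
      rw [← map_zero f, ← hγ k]
      exact aeval_algHom_apply f.toRingHom.toIntAlgHom _ P) hJ hn
    (by simpa using congrArg f hrel)
  have h3 : (γ k * γ l) ^ m = ((p : A) ^ e) ^ m := f.injective (by simpa using h2)
  have h4 := congrArg g h3
  rw [map_pow, map_mul, map_pow, map_pow, map_natCast] at h4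
  exact ⟨k, hk, l, hl, h1, m, hm, h4⟩

end Pool.Agent.P.MP_ee618e_ag.FP
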