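import Mathlib

/-!
Slopes in an ultrametric field and two sign-counting lemmas.
-/

set_option autoImplicit false

namespace Pool.Agent.P.MP_ee618e_ag.FP

section slope

variable {Ω : Type*} [NormedField Ω]

/-- The additive slope of `x` relative to the square root of `c`. -/
noncomputable def sl (c x : Ω) : ℝ := 2 * Real.log ‖x‖ - Real.log ‖c‖

theorem sl_eq_zero {c x : Ω} (hc : c ≠ 0) (hx : x ≠ 0) : sl c x = 0 ↔ ‖x‖ ^ 2 = ‖c‖ := by
  have h1 : 0 < ‖x‖ ^ 2 := pow_pos (norm_pos_iff.2 hx) 2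
  have h2 : 0 < ‖c‖ := norm_pos_iff.2 hc
  rw [sl, sub_eq_zero, ← Real.log_injOn_pos.eq_iff h1 h2, Real.log_pow]
  simp

theorem sl_div {c x : Ω} (hc : c ≠ 0) (hx : x ≠ 0) : sl c (c / x) = - sl c x := by
  rw [sl, sl, norm_div, Real.log_div (norm_ne_zero_iff.2 hc) (norm_ne_zero_iff.2 hx)]
  ring

theorem sl_mul {c x y : Ω} (hx : x ≠ 0) (hy : y ≠ 0) :
    sl (c ^ 2) (x * y) = sl c x + sl c y := by
  rw [sl, sl, sl, norm_mul, Real.log_mul (norm_ne_zero_iff.2 hx) (norm_ne_zero_iff.2 hy), norm_pow,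
    Real.log_pow]
  push_cast
  ring

theorem sl_sum {I : Type*} {c : Ω} {β : I → Ω} {J : Finset I} (hβ : ∀ k ∈ J, β k ≠ 0)
    {i n : ℕ} (hJ : J.card = 2 * i) (hn : 0 < n) (h : (∏ k ∈ J, β k) ^ n = c ^ (i * n)) :
    ∑ k ∈ J, sl c (β k) = 0 := by
  have h1 := congrArg (fun z => Real.log ‖z‖) h
  simp only [norm_pow, Real.log_pow, norm_prod] at h1
  rw [Real.log_prod (fun k hk => norm_ne_zero_iff.2 (hβ k hk))] at h1
  have h2 : (n : ℝ) ≠ 0 := by exact_mod_cast hn.ne'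
  have h3 : ∑ k ∈ J, Real.log ‖β k‖ = i * Real.log ‖c‖ := by
    apply mul_left_cancel₀ h2
    rw [h1]
    push_cast
    ring
  simp only [sl, Finset.sum_sub_distrib, ← Finset.mul_sum, h3, Finset.sum_const, hJ, nsmul_eq_mul]
  push_cast
  ring

variable [IsUltrametricDist Ω]

theorem trace_le {c x : Ω} (hx : x ≠ 0) (h : ‖x‖ ^ 2 = ‖c‖) : ‖x + c / x‖ ^ 2 ≤ ‖c‖ := by
  have h0 : 0 < ‖x‖ := norm_pos_iff.2 hx
  have h1 : ‖c / x‖ = ‖x‖ := by
    rw [norm_div, ← h]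
    field_simp
  have h2 := IsUltrametricDist.norm_add_le_max x (c / x)
  rw [h1, max_self] at h2
  rw [← h]
  exact pow_le_pow_left₀ (norm_nonneg _) h2 2

theorem abs_sl {c x : Ω} (hc : c ≠ 0) (hx : x ≠ 0) (h : ‖x‖ ^ 2 ≠ ‖c‖) :
    ‖c‖ < ‖x + c / x‖ ^ 2 ∧ |sl c x| = sl c (x + c / x) := by
  have h0 : 0 < ‖x‖ := norm_pos_iff.2 hx
  have h0' : 0 < ‖c‖ := norm_pos_iff.2 hc
  have h1 : ‖x‖ ≠ ‖c / x‖ := by
    rw [norm_div]
    intro h2
    apply h
    rw [eq_div_iff h0.ne'] at h2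
    rw [← h2, sq]
  have h2 := IsUltrametricDist.norm_add_eq_max_of_norm_ne_norm h1
  have key : ∀ y : Ω, y ≠ 0 → ‖c‖ < ‖y‖ ^ 2 → 0 < sl c y := fun y hy h3 => by
    have := Real.log_lt_log h0' h3
    rw [Real.log_pow] at this
    rw [sl]
    push_cast at this
    linarith
  rcases lt_or_gt_of_ne h with h3 | h3
  · have h4 : ‖x‖ < ‖c / x‖ := by
      rw [norm_div, lt_div_iff₀ h0, ← sq]
      exact h3
    have h5 : ‖c‖ < ‖c / x‖ ^ 2 := by
      rw [norm_div, div_pow, lt_div_iff₀ (pow_pos h0 2)]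
      nlinarith
    rw [max_eq_right h4.le] at h2
    refine ⟨h2 ▸ h5, ?_⟩
    have h6 := key _ (div_ne_zero hc hx) h5
    rw [← abs_neg, ← sl_div hc hx, abs_of_pos h6, sl, sl, h2]
  · have h4 : ‖c / x‖ < ‖x‖ := by
      rw [norm_div, div_lt_iff₀ h0, ← sq]
      exact h3
    rw [max_eq_left h4.le] at h2
    refine ⟨h2 ▸ h3, ?_⟩
    rw [abs_of_pos (key _ hx h3), sl, sl, h2]

theorem sl_zero_iff {c x : Ω} (hc : c ≠ 0) (hx : x ≠ 0) :
    sl c x = 0 ↔ ‖x + c / x‖ ^ 2 ≤ ‖c‖ := by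
  rw [sl_eq_zero hc hx]
  exact ⟨trace_le hx, fun h => by_contra fun h1 => (abs_sl hc hx h1).1.not_ge h⟩

end slope

section signs

open Finset

/-- Two places: a family of sign vectors of length two with sum zero contains the opposite of each
of its members. -/
theorem two_places {I : Type*} {B : Finset I} {x y : I → ℝ} {j : I} (hj : j ∈ B)
    (hx : ∀ k ∈ B, |x k| = |x j|) (hy : ∀ k ∈ B, |y k| = |y j|) (hx0 : x j ≠ 0) (hy0 : y j ≠ 0)
    (sx : ∑ k ∈ B, x k = 0) (sy : ∑ k ∈ B, y k = 0) :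
    ∃ k ∈ B, x k = - x j ∧ y k = - y j := by
  by_contra hno
  push Not at hno
  have h1 : ∀ k ∈ B, 0 ≤ x k / x j + y k / y j := by
    intro k hk
    rcases abs_eq_abs.1 (hx k hk) with h2 | h2 <;> rcases abs_eq_abs.1 (hy k hk) with h3 | h3
    · rw [h2, h3, div_self hx0, div_self hy0]
      norm_num
    · rw [h2, h3, div_self hx0, neg_div, div_self hy0]
      norm_num
    · rw [h2, h3, neg_div, div_self hx0, div_self hy0]
      norm_num
    · exact absurd h3 (hno k hk h2)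
  have h2 := single_le_sum h1 hj
  rw [sum_add_distrib, ← sum_div, ← sum_div, sx, sy, div_self hx0, div_self hy0] at h2
  norm_num at h2

/-- At most three different sign vectors with a vanishing positive combination contain an opposite
pair. -/
theorem three_values {I X : Type*} [DecidableEq (X → ℝ)] {B : Finset I} {v : I → X → ℝ} {j : I}
    (hj : j ∈ B) {x₀ : X} (h0 : v j x₀ ≠ 0) (habs : ∀ k ∈ B, ∀ x, |v k x| = |v j x|)
    (hs : ∀ x, ∑ k ∈ B, v k x = 0) (h3 : (B.image v).card ≤ 3) :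
    ∃ k ∈ B, ∃ l ∈ B, v k = - v l := by
  let m : (X → ℝ) → ℕ := fun y => (B.filter fun k => v k = y).card
  have hsum : ∀ x, ∑ y ∈ B.image v, (m y : ℝ) * y x = 0 := by
    intro x
    rw [← hs x, ← sum_fiberwise_of_maps_to (g := v) (t := B.image v)
      fun k hk => mem_image_of_mem v hk]
    refine sum_congr rfl fun y _ => ?_
    rw [sum_congr rfl (g := fun _ => y x) fun k hk => by rw [(mem_filter.1 hk).2]]
    simp [m]
  have hpos : ∀ y ∈ B.image v, (0 : ℝ) < m y := by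
    intro y hy
    obtain ⟨k, hk, rfl⟩ := mem_image.1 hy
    have h4 : 0 < m (v k) := card_pos.2 ⟨k, mem_filter.2 ⟨hk, rfl⟩⟩
    exact_mod_cast h4
  have hab : ∀ y ∈ B.image v, ∀ x, |y x| = |v j x| := by
    intro y hy
    obtain ⟨k, hk, rfl⟩ := mem_image.1 hy
    exact habs k hk
  obtain ⟨y₁, hy₁, hmax⟩ := exists_max_image (B.image v) m ⟨_, mem_image_of_mem v hj⟩
  have hne : ∃ y₂ ∈ B.image v, y₂ ≠ y₁ := by
    by_contra hno
    push Not at hno
    have h4 := hsum x₀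
    rw [eq_singleton_iff_unique_mem.2 ⟨hy₁, hno⟩, sum_singleton] at h4
    have h5 := hab y₁ hy₁ x₀
    rw [(mul_eq_zero.1 h4).resolve_left (hpos y₁ hy₁).ne', abs_zero] at h5
    exact h0 (abs_eq_zero.1 h5.symm)
  obtain ⟨y₂, hy₂, hne⟩ := hne
  have hopp : y₂ = - y₁ := by
    funext x
    rcases abs_eq_abs.1 ((hab y₂ hy₂ x).trans (hab y₁ hy₁ x).symm) with h4 | h4
    · by_contra h5
      have h6 : y₁ x ≠ 0 := fun h7 => h5 (by simp [h4, h7])
      have h7 := hsum x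
      have hm : y₂ ∈ (B.image v).erase y₁ := mem_erase.2 ⟨hne, hy₂⟩
      rw [← add_sum_erase _ _ hy₁, ← add_sum_erase _ _ hm, h4] at h7
      have h8 : (((B.image v).erase y₁).erase y₂).card ≤ 1 := by
        rw [card_erase_of_mem hm, card_erase_of_mem hy₁]
        omega
      have h9 : |∑ y ∈ ((B.image v).erase y₁).erase y₂, (m y : ℝ) * y x| ≤ m y₁ * |y₁ x| := by
        refine (abs_sum_le_sum_abs _ _).trans ((sum_le_card_nsmul _ _ (m y₁ * |y₁ x|) ?_).trans ?_)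
        · intro y hy
          have hy' := mem_of_mem_erase (mem_of_mem_erase hy)
          rw [abs_mul, Nat.abs_cast, hab y hy', hab y₁ hy₁]
          exact mul_le_mul_of_nonneg_right (by exact_mod_cast hmax y hy') (abs_nonneg _)
        · rw [nsmul_eq_mul]
          exact mul_le_of_le_one_left (by positivity) (by exact_mod_cast h8)
      have h10 : ∑ y ∈ ((B.image v).erase y₁).erase y₂, (m y : ℝ) * y x =
          -((m y₁ + m y₂) * y₁ x) := by linarith
      rw [h10, abs_neg, abs_mul, abs_of_pos (add_pos (hpos y₁ hy₁) (hpos y₂ hy₂))] at h9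
      have := mul_pos (hpos y₂ hy₂) (abs_pos.2 h6)
      linarith
    · exact h4
  obtain ⟨k, hk, rfl⟩ := mem_image.1 hy₂
  obtain ⟨l, hl, rfl⟩ := mem_image.1 hy₁
  exact ⟨k, hk, l, hl, hopp⟩

theorem exists_second {Y : Type*} {S : Set Y} (h : S.encard ≤ 2) {w₁ : Y} (h1 : w₁ ∈ S) :
    ∃ w₂ ∈ S, ∀ w ∈ S, w = w₁ ∨ w = w₂ := by
  by_contra hno
  push Not at hno
  obtain ⟨w₂, h2, h3, -⟩ := hno w₁ h1
  obtain ⟨w₃, h4, h5, h6⟩ := hno w₂ h2
  have h7 : ({w₁, w₂, w₃} : Set Y) ⊆ S := by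
    intro w hw
    rcases hw with rfl | rfl | rfl <;> assumption
  have h8 := (Set.encard_le_encard h7).trans h
  rw [Set.encard_eq_three.2 ⟨w₁, w₂, w₃, h3.symm, h5.symm, h6.symm, rfl⟩] at h8
  norm_num at h8

end signs

end Pool.Agent.P.MP_ee618e_ag.FP
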